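import Pool.Agent.H197R3.SF.Stmts

set_option autoImplicit false

open Matrix
open scoped ComplexConjugate

namespace Pool.Agent.H992R3.SF

open Pool.Agent.H197R3.SF

lemma re_star_dot {n : ℕ} (y : Fin n → ℂ) : (star y ⬝ᵥ y).re = ∑ i, ‖y i‖ ^ 2 := by
  simp only [dotProduct, Pi.star_apply, Complex.re_sum]
  refine Finset.sum_congr rfl fun i _ => ?_
  have : star (y i) * y i = ((‖y i‖ ^ 2 : ℝ) : ℂ) := by
    rw [mul_comm]
    have := Complex.mul_conj' (y i)
    push_cast
    exact this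
  rw [this, Complex.ofReal_re]

lemma re_star_diag {n : ℕ} (l : Fin n → ℝ) (y : Fin n → ℂ) :
    (star y ⬝ᵥ (Matrix.diagonal (fun i => (l i : ℂ)) *ᵥ y)).re = ∑ i, l i * ‖y i‖ ^ 2 := by
  simp only [dotProduct, Pi.star_apply, Complex.re_sum, Matrix.mulVec_diagonal]
  refine Finset.sum_congr rfl fun i _ => ?_
  have : star (y i) * ((l i : ℂ) * y i) = ((l i * ‖y i‖ ^ 2 : ℝ) : ℂ) := by
    have := Complex.mul_conj' (y i)
    push_cast
    calc star (y i) * ((l i : ℂ) * y i) = (l i : ℂ) * (y i * (starRingEnd ℂ) (y i)) := by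
          rw [starRingEnd_apply]; ring
      _ = _ := by rw [this]
  rw [this, Complex.ofReal_re]

lemma star_dot_mulVec {n : ℕ} (U : Matrix (Fin n) (Fin n) ℂ) (x z : Fin n → ℂ) :
    star x ⬝ᵥ (U *ᵥ z) = star (Uᴴ *ᵥ x) ⬝ᵥ z := by
  rw [Matrix.star_mulVec, Matrix.conjTranspose_conjTranspose, Matrix.dotProduct_mulVec]

theorem taskPos : TaskPos := by
  intro n M δ hδ
  obtain ⟨K, hK⟩ : ∃ K : ℝ, K = 1 + n * |M| := ⟨_, rfl⟩
  have hK1 : 1 ≤ K := by
    rw [hK]
    have : 0 ≤ (n:ℝ) * |M| := by positivity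
    linarith
  have hK0 : 0 < K := by linarith
  refine ⟨δ / K ^ n, by positivity, ?_⟩
  intro A hA hpos hM hdet
  have h0 : ∀ i, 0 ≤ hA.eigenvalues i := by
    intro i
    rw [hA.eigenvalues_eq]
    exact hpos _
  have htr : ∑ i, hA.eigenvalues i = A.trace.re := by
    have := congrArg Complex.re hA.trace_eq_sum_eigenvalues
    rw [this]
    simp [Complex.re_sum]
  have hle : ∀ i, hA.eigenvalues i ≤ K := by
    intro i
    have h1 : hA.eigenvalues i ≤ ∑ i, hA.eigenvalues i :=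
      Finset.single_le_sum (fun j _ => h0 j) (Finset.mem_univ i)
    have h2 : A.trace.re ≤ n * |M| := by
      rw [Matrix.trace, Complex.re_sum]
      calc ∑ i, (A.diag i).re ≤ ∑ _i : Fin n, |M| := by
            apply Finset.sum_le_sum
            intro j _
            exact (Complex.re_le_norm _).trans ((hM j j).trans (le_abs_self M))
        _ = n * |M| := by simp
    rw [htr] at h1
    rw [hK]
    linarith
  have hdet' : δ ≤ ∏ i, hA.eigenvalues i := by
    rw [hA.det_eq_prod_eigenvalues] at hdet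
    have : (∏ i, ((hA.eigenvalues i : ℝ) : ℂ)) = ((∏ i, hA.eigenvalues i : ℝ) : ℂ) := by
      push_cast; rfl
    have h2 : (∏ i, (RCLike.ofReal (hA.eigenvalues i) : ℂ)).re = ∏ i, hA.eigenvalues i := by
      have h3 : (∏ i, (RCLike.ofReal (hA.eigenvalues i) : ℂ)) = ((∏ i, hA.eigenvalues i : ℝ) : ℂ) := by
        rw [← this]; rfl
      rw [h3, Complex.ofReal_re]
    rw [h2] at hdet
    exact hdet
  have hi : ∀ i, δ / K ^ n ≤ hA.eigenvalues i := by
    intro i
    rw [div_le_iff₀ (by positivity)]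
    rw [← Finset.mul_prod_erase _ _ (Finset.mem_univ i)] at hdet'
    have h4 : ∏ j ∈ Finset.univ.erase i, hA.eigenvalues j ≤ K ^ n := by
      calc ∏ j ∈ Finset.univ.erase i, hA.eigenvalues j ≤ ∏ _j ∈ Finset.univ.erase i, K :=
            Finset.prod_le_prod (fun j _ => h0 j) (fun j _ => hle j)
        _ = K ^ (Finset.univ.erase i).card := Finset.prod_const K
        _ ≤ K ^ n := by
            apply pow_le_pow_right₀ hK1
            exact (Finset.card_le_card (Finset.erase_subset i Finset.univ)).trans (by simp)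
    exact hdet'.trans (mul_le_mul_of_nonneg_left h4 (h0 i))
  intro x
  obtain ⟨U, hU⟩ : ∃ U : Matrix (Fin n) (Fin n) ℂ, U = (hA.eigenvectorUnitary : Matrix (Fin n) (Fin n) ℂ) :=
    ⟨_, rfl⟩
  have hUU : U * Uᴴ = 1 := by
    rw [hU]
    exact Unitary.coe_mul_star_self hA.eigenvectorUnitary
  have hspec : A = U * Matrix.diagonal (fun i => ((hA.eigenvalues i : ℝ) : ℂ)) * Uᴴ := by
    have := hA.spectral_theorem
    rw [Unitary.conjStarAlgAut_apply] at this
    rw [hU]
    exact this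
  obtain ⟨y, hy⟩ : ∃ y : Fin n → ℂ, y = Uᴴ *ᵥ x := ⟨_, rfl⟩
  have e1 : (star x ⬝ᵥ (A *ᵥ x)).re = ∑ i, hA.eigenvalues i * ‖y i‖ ^ 2 := by
    rw [← re_star_diag, hy, ← star_dot_mulVec, Matrix.mulVec_mulVec, Matrix.mulVec_mulVec]
    rw [← hspec]
  have e2 : ∑ i, ‖y i‖ ^ 2 = ∑ i, ‖x i‖ ^ 2 := by
    rw [← re_star_dot, ← re_star_dot, hy, ← star_dot_mulVec, Matrix.mulVec_mulVec, hUU,
      Matrix.one_mulVec]
  rw [e1, ← e2, Finset.mul_sum]
  exact Finset.sum_le_sum fun i _ => mul_le_mul_of_nonneg_right (hi i) (by positivity)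

end Pool.Agent.H992R3.SF
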